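import Mathlib

/-!
# MP_93d35c_nt: the inequality `π(xy)^2 ≤ π(x^2) π(y^2)` fails for arbitrarily large `x, y`

If the inequality held for all `x, y ≥ n₀`, then taking `y = x + 2` and noting that `(x + 1) ^ 2` is not a
prime, so that `π(x (x + 2)) = π((x + 1) ^ 2)`, the sequence `a n = π(n ^ 2)` would be log-convex from `n₀` on.
It is unbounded, so `a (m + 1) > a m` for some `m ≥ n₀`, and log-convexity makes it grow exponentially,
contradicting `a n ≤ n ^ 2`.
-/

set_option autoImplicit false

open Nat Filter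

namespace Pool.Agent.Results.MP_93d35c_nt.LogConvex

lemma primeCounting_le_self (n : ℕ) : Nat.primeCounting n ≤ n := by
  induction n with
  | zero => simp
  | succ n ih =>
    have h : Nat.primeCounting (n + 1) ≤ Nat.primeCounting n + 1 := by
      rw [Nat.primeCounting, Nat.primeCounting, Nat.primeCounting', Nat.count_succ]
      split_ifs <;> omega
    omega

lemma mid (x : ℕ) : Nat.primeCounting (x * (x + 2)) = Nat.primeCounting ((x + 1) ^ 2) := by
  have h : (x + 1) ^ 2 = x * (x + 2) + 1 := by ring
  rw [h, Nat.primeCounting, Nat.primeCounting, Nat.primeCounting', Nat.count_succ _ (x * (x + 2) + 1)]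
  have h2 : ¬ Nat.Prime (x * (x + 2) + 1) := by
    rw [← h]
    exact Nat.Prime.not_prime_pow le_rfl
  simp [h2]

/-- For each `n₀` there are `x, y ≥ n₀` with `π(x^2) π(y^2) < π(xy)^2`. -/
theorem result (n₀ : ℕ) : ∃ x y : ℕ, n₀ ≤ x ∧ n₀ ≤ y ∧
    Nat.primeCounting (x ^ 2) * Nat.primeCounting (y ^ 2) < Nat.primeCounting (x * y) ^ 2 := by
  by_contra hcon
  push Not at hcon
  set N := max n₀ 2 with hN
  set a : ℕ → ℕ := fun n => Nat.primeCounting (n ^ 2) with ha
  have hmono : Monotone a := fun m n hmn => Nat.monotone_primeCounting (Nat.pow_le_pow_left hmn 2)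
  have hlc : ∀ n, N ≤ n → a (n + 1) ^ 2 ≤ a n * a (n + 2) := by
    intro n hn
    have h1 := hcon n (n + 2) (le_trans (le_max_left _ _) hn)
      (le_trans (le_trans (le_max_left _ _) hn) (by omega))
    rw [mid n] at h1
    exact h1
  have hpos : ∀ n, N ≤ n → 0 < a n := by
    intro n hn
    have h2 : 2 ≤ n := le_trans (le_max_right _ _) hn
    have h3 : 0 < a 2 := by
      have : 0 < Nat.primeCounting 4 := by decide
      simpa [ha] using this
    exact lt_of_lt_of_le h3 (hmono h2)
  obtain ⟨m, hm, hlt⟩ : ∃ m, N ≤ m ∧ a m < a (m + 1) := by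
    by_contra hc
    push Not at hc
    have hconst : ∀ k, a (N + k) ≤ a N := by
      intro k
      induction k with
      | zero => simp
      | succ k ih => exact le_trans (hc (N + k) (by omega)) ih
    have hun : ∃ n, a N < a n := by
      obtain ⟨q, hq⟩ := (Nat.tendsto_primeCounting.eventually_gt_atTop (a N)).exists
      refine ⟨q + 1, lt_of_lt_of_le hq (Nat.monotone_primeCounting ?_)⟩
      nlinarith
    obtain ⟨n, hn⟩ := hun
    have h5 : a n ≤ a (N + n) := hmono (by omega)
    exact absurd (hconst n) (by omega)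
  have hapos : (0 : ℝ) < a m := by exact_mod_cast hpos m hm
  set r : ℝ := (a (m + 1) : ℝ) / a m with hr
  have hr1 : 1 < r := by
    rw [hr, one_lt_div hapos]
    exact_mod_cast hlt
  have hstep : ∀ k, r * a (m + k) ≤ a (m + k + 1) := by
    intro k
    induction k with
    | zero =>
      rw [hr]
      simp only [add_zero]
      rw [div_mul_cancel₀ _ hapos.ne']
    | succ k ih =>
      have h6 : (0 : ℝ) < a (m + k) := by exact_mod_cast hpos (m + k) (by omega)
      have h7 : (0 : ℝ) < a (m + k + 1) := by exact_mod_cast hpos (m + k + 1) (by omega)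
      have h8 : ((a (m + k + 1) : ℝ)) ^ 2 ≤ a (m + k) * a (m + k + 2) := by
        exact_mod_cast hlc (m + k) (by omega)
      have h9 : (a (m + k) : ℝ) * (r * a (m + k + 1)) ≤ a (m + k) * a (m + k + 2) := by
        nlinarith
      have h10 := le_of_mul_le_mul_left h9 h6
      simpa [add_assoc] using h10
  have hexp : ∀ k, r ^ k ≤ a (m + k) := by
    intro k
    induction k with
    | zero =>
      have : 1 ≤ a m := hpos m hm
      simpa using (by exact_mod_cast this : (1 : ℝ) ≤ a m)
    | succ k ih =>
      calc r ^ (k + 1) = r * r ^ k := by ring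
        _ ≤ r * a (m + k) := by nlinarith
        _ ≤ a (m + (k + 1)) := by simpa [add_assoc] using hstep k
  have hub : ∀ k, (a (m + k) : ℝ) ≤ ((m + k : ℕ) : ℝ) ^ 2 := by
    intro k
    have := primeCounting_le_self ((m + k) ^ 2)
    exact_mod_cast this
  have hlim := tendsto_pow_const_div_const_pow_of_one_lt 2 hr1
  have hev := (hlim.comp (tendsto_add_atTop_nat m)).eventually_lt_const
    (show (0 : ℝ) < 1 / r ^ m by positivity)
  obtain ⟨k, hk⟩ := hev.exists
  simp only [Function.comp] at hk
  have h11 : r ^ k ≤ ((m + k : ℕ) : ℝ) ^ 2 := le_trans (hexp k) (hub k)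
  rw [div_lt_div_iff₀ (by positivity) (by positivity), one_mul, pow_add] at hk
  have h12 : (0 : ℝ) < r ^ m := by positivity
  have h13 : ((k + m : ℕ) : ℝ) ^ 2 < r ^ k := by
    have : ((k + m : ℕ) : ℝ) ^ 2 * r ^ m < r ^ k * r ^ m := hk
    exact lt_of_mul_lt_mul_right this h12.le
  rw [add_comm k m] at h13
  linarith

end Pool.Agent.Results.MP_93d35c_nt.LogConvex
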